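import Pool.Agent.Q72.Psh.Basic

set_option autoImplicit false
open MeasureTheory Filter Topology Set Metric Q72.Psh

namespace Pool.Agent.Q72.WE

/-- the closed annulus -/
def Ann (ρ : ℝ) : Set ℂ := {z | 1 ≤ ‖z‖ ∧ ‖z‖ ≤ ρ}

lemma ann_compact (ρ : ℝ) : IsCompact (Ann ρ) := by
  have : Ann ρ = closedBall 0 ρ ∩ {z : ℂ | 1 ≤ ‖z‖} := by
    ext z
    simp [Ann, and_comm]
  rw [this]
  exact (isCompact_closedBall _ _).inter_right (isClosed_le continuous_const continuous_norm)

lemma avg_log {z : ℂ} {ε : ℝ} (hε : 0 < ε) (hz : ε < ‖z‖) :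
    Real.circleAverage (fun ζ : ℂ => Real.log ‖z + ε * ζ‖) 0 1 = Real.log ‖z‖ := by
  have h1 := circleAverage_log_norm_sub_const_eq_log_radius_add_posLog (a := (0 : ℂ)) (c := z)
    (R := ε) hε.ne'
  have h2 : Real.circleAverage (fun ζ : ℂ => Real.log ‖z + ε * ζ‖) 0 1 =
      Real.circleAverage (fun w : ℂ => Real.log ‖w - 0‖) z ε := by
    unfold Real.circleAverage
    congr 1
    apply intervalIntegral.integral_congr
    intro θ _
    simp [circleMap]
  rw [h2, h1, sub_zero]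
  have h3 : 1 ≤ ε⁻¹ * ‖z‖ := by
    rw [← div_eq_inv_mul, one_le_div hε]; exact hz.le
  have hz0 : 0 < ‖z‖ := hε.trans hz
  rw [Real.posLog_eq_log (by rw [abs_of_nonneg (by positivity)]; exact h3),
    Real.log_mul (by positivity) hz0.ne', Real.log_inv]
  ring

theorem annulus_le {O : Set ℂ} {u : ℂ → EReal} (hu : IsPSH O u) {ρ : ℝ} (hρ : 1 < ρ)
    (hsub : Ann ρ ⊆ O) (a b : ℝ) (h1 : ∀ z : ℂ, ‖z‖ = 1 → u z ≤ ((a : ℝ) : EReal))
    (h2 : ∀ z : ℂ, ‖z‖ = ρ → u z ≤ ((a + b * Real.log ρ : ℝ) : EReal)) {z : ℂ}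
    (hz : z ∈ Ann ρ) : u z ≤ ((a + b * Real.log ‖z‖ : ℝ) : EReal) := by
  by_contra hcon
  push Not at hcon
  set c : ℂ → ℝ := fun z => a + b * Real.log ‖z‖ with hc
  have hcc : ContinuousOn c (Ann ρ) := by
    apply ContinuousOn.add continuousOn_const
    apply ContinuousOn.mul continuousOn_const
    apply ContinuousOn.log continuous_norm.continuousOn
    intro w hw
    have := hw.1
    linarith
  have hu1 : UpperSemicontinuousOn u (Ann ρ) := hu.1.mono hsub
  have hutop : ∀ w ∈ Ann ρ, u w ≠ ⊤ := fun w hw => hu.2.1 w (hsub hw)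
  set g : ℂ → ℝ := fun w => (max (u w) ((c w : ℝ) : EReal)).toReal - c w with hg
  have hmr : ∀ w ∈ Ann ρ, ((max (u w) ((c w : ℝ) : EReal)).toReal : EReal) =
      max (u w) ((c w : ℝ) : EReal) := by
    intro w hw
    apply EReal.coe_toReal
    · rcases max_choice (u w) ((c w : ℝ) : EReal) with h | h
      · rw [h]; exact hutop w hw
      · rw [h]; exact EReal.coe_ne_top _
    · intro h
      have := le_max_right (u w) ((c w : ℝ) : EReal)
      rw [h] at this
      exact absurd (le_bot_iff.1 this) (EReal.coe_ne_bot _)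
  have hglt : ∀ w ∈ Ann ρ, ∀ y : ℝ, g w ≤ y ↔ (u w ≤ ((c w + y : ℝ) : EReal) ∧ 0 ≤ y) := by
    intro w hw y
    have e1 : g w ≤ y ↔ (max (u w) ((c w : ℝ) : EReal)).toReal ≤ c w + y := by
      rw [hg]; constructor <;> intro h <;> linarith
    rw [e1, ← EReal.coe_le_coe_iff, hmr w hw, max_le_iff, EReal.coe_le_coe_iff]
    constructor
    · rintro ⟨h3, h4⟩; exact ⟨h3, by linarith⟩
    · rintro ⟨h3, h4⟩; exact ⟨h3, by linarith⟩
  have hgltt : ∀ w ∈ Ann ρ, ∀ y : ℝ, g w < y ↔ (u w < ((c w + y : ℝ) : EReal) ∧ 0 < y) := by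
    intro w hw y
    have e1 : g w < y ↔ (max (u w) ((c w : ℝ) : EReal)).toReal < c w + y := by
      rw [hg]; constructor <;> intro h <;> linarith
    rw [e1, ← EReal.coe_lt_coe_iff, hmr w hw, max_lt_iff, EReal.coe_lt_coe_iff]
    constructor
    · rintro ⟨h3, h4⟩; exact ⟨h3, by linarith⟩
    · rintro ⟨h3, h4⟩; exact ⟨h3, by linarith⟩
  have hgusc : UpperSemicontinuousOn g (Ann ρ) := by
    intro w hw y hy
    rw [hgltt w hw] at hy
    obtain ⟨hy1, hy2⟩ := hy
    obtain ⟨t, ht1, ht2⟩ := EReal.lt_iff_exists_real_btwn.1 hy1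
    rw [EReal.coe_lt_coe_iff] at ht2
    have e3 := hu1 w hw _ ht1
    have e4 : ∀ᶠ w' in 𝓝[Ann ρ] w, t - y < c w' :=
      (hcc w hw).eventually (lt_mem_nhds (by linarith))
    filter_upwards [e3, e4, self_mem_nhdsWithin] with w' h3 h4 h5
    rw [hgltt w' h5]
    refine ⟨h3.trans ?_, hy2⟩
    rw [EReal.coe_lt_coe_iff]
    linarith
  obtain ⟨z1, hz1, hmax⟩ := hgusc.exists_isMaxOn ⟨z, hz⟩ (ann_compact ρ)
  set m : ℝ := g z1 with hm
  have hm0 : 0 < m := by
    have h3 : g z ≤ m := hmax hz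
    by_contra hneg
    push Not at hneg
    have h4 := (hglt z hz 0).1 (h3.trans hneg)
    rw [add_zero] at h4
    exact absurd h4.1 (not_le.2 hcon)
  have hScomp : IsCompact (Ann ρ ∩ g ⁻¹' Ici m) := hgusc.isCompact_inter_preimage_Ici (ann_compact ρ) m
  obtain ⟨z2, hz2, hmax2⟩ := hScomp.exists_isMaxOn ⟨z1, hz1, le_refl m⟩ continuous_norm.continuousOn
  have hgz2 : g z2 = m := le_antisymm (hmax hz2.1) hz2.2
  have hle : ∀ w ∈ Ann ρ, u w ≤ ((c w + m : ℝ) : EReal) := fun w hw => ((hglt w hw m).1 (hmax hw)).1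
  have hz2A := hz2.1
  have hnlt : ¬ (u z2 < ((c z2 + m : ℝ) : EReal)) := by
    intro h
    have := (hgltt z2 hz2A m).2 ⟨h, hm0⟩
    linarith
  have hn1 : 1 < ‖z2‖ := by
    rcases lt_or_eq_of_le hz2A.1 with h | h
    · exact h
    · exfalso
      apply hnlt
      refine lt_of_le_of_lt (h1 z2 h.symm) ?_
      rw [EReal.coe_lt_coe_iff, hc]
      simp only [← h, Real.log_one, mul_zero, add_zero]
      linarith
  have hn2 : ‖z2‖ < ρ := by
    rcases lt_or_eq_of_le hz2A.2 with h | h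
    · exact h
    · exfalso
      apply hnlt
      refine lt_of_le_of_lt (h2 z2 h) ?_
      rw [EReal.coe_lt_coe_iff, hc]
      simp only [h]
      linarith
  set ε : ℝ := min (‖z2‖ - 1) (ρ - ‖z2‖) with hε
  have hε0 : 0 < ε := lt_min (by linarith) (by linarith)
  have hε1 : ε ≤ ‖z2‖ - 1 := min_le_left _ _
  have hε2 : ε ≤ ρ - ‖z2‖ := min_le_right _ _
  set φ : ℂ → ℂ := fun ζ => z2 + ε * ζ with hφ
  have hφmem : ∀ ζ : ℂ, ‖ζ‖ ≤ 1 → φ ζ ∈ Ann ρ := by
    intro ζ hζ
    have e1 : ‖(ε : ℂ) * ζ‖ ≤ ε := by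
      rw [norm_mul, Complex.norm_real, Real.norm_of_nonneg hε0.le]
      exact mul_le_of_le_one_right hε0.le hζ
    constructor
    · have := norm_sub_norm_le z2 (-(ε * ζ))
      rw [sub_neg_eq_add, norm_neg] at this
      show 1 ≤ ‖z2 + ε * ζ‖
      linarith
    · show ‖z2 + ε * ζ‖ ≤ ρ
      refine (norm_add_le _ _).trans ?_
      linarith
  set e1 : ℂ := z2 / ‖z2‖ with he1
  have hz20 : (‖z2‖ : ℂ) ≠ 0 := by
    rw [Complex.ofReal_ne_zero]; linarith
  have he1n : ‖e1‖ = 1 := by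
    rw [he1, norm_div, Complex.norm_real, norm_norm, div_self (by linarith)]
  have hφe1 : ‖φ e1‖ = ‖z2‖ + ε := by
    have : φ e1 = ((‖z2‖ + ε : ℝ) : ℂ) * e1 := by
      rw [hφ, he1]
      push_cast
      field_simp
    rw [this, norm_mul, he1n, mul_one, Complex.norm_real, Real.norm_of_nonneg (by linarith)]
  have hφe1A : φ e1 ∈ Ann ρ := hφmem e1 he1n.le
  have hgφ : g (φ e1) < m := by
    rcases lt_or_eq_of_le (show g (φ e1) ≤ m from hmax hφe1A) with h | h
    · exact h
    · exfalso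
      have h3 : ‖φ e1‖ ≤ ‖z2‖ := hmax2 ⟨hφe1A, h.ge⟩
      rw [hφe1] at h3
      linarith
  obtain ⟨m', hm1, hm2⟩ := exists_between hgφ
  have hcontφ : Continuous φ := by rw [hφ]; fun_prop
  have hnear : ∃ η > 0, ∀ ζ : ℂ, ‖ζ‖ = 1 → ‖ζ - e1‖ < η → g (φ ζ) < m' := by
    have h3 := hgusc (φ e1) hφe1A m' hm1
    have h4 : Tendsto φ (𝓝[{ζ | ‖ζ‖ ≤ 1}] e1) (𝓝[Ann ρ] (φ e1)) := by
      apply tendsto_nhdsWithin_of_tendsto_nhds_of_eventually_within
      · exact hcontφ.continuousAt.continuousWithinAt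
      · filter_upwards [self_mem_nhdsWithin] with ζ hζ
        exact hφmem ζ hζ
    have h5 := h4.eventually h3
    rw [eventually_nhdsWithin_iff, Metric.eventually_nhds_iff] at h5
    obtain ⟨η, hη, h6⟩ := h5
    refine ⟨η, hη, fun ζ hζ1 hζ2 => h6 (by rw [dist_eq_norm]; exact hζ2) hζ1.le⟩
  obtain ⟨η, hη, hnear⟩ := hnear
  set bump : ℂ → ℝ := fun ξ => max 0 (1 - ‖ξ - e1‖ / η) with hbump
  have hbc : Continuous bump := by rw [hbump]; fun_prop
  have hm'0 : 0 < m' := by
    have := (hgltt (φ e1) hφe1A m').1 hm1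
    exact this.2
  have hcφ : ContinuousOn (fun ζ => c (φ ζ)) (sphere 0 1) :=
    hcc.comp hcontφ.continuousOn (fun ζ hζ => hφmem ζ (by simpa using (mem_sphere_zero_iff_norm.1 hζ).le))
  have key := hu.2.2 φ (by
      have : Differentiable ℂ φ := by rw [hφ]; fun_prop
      exact fun x _ => this.analyticAt x)
    (fun ζ hζ => hsub (hφmem ζ (by simpa using hζ)))
    (fun ζ => (c (φ ζ) + m) + (-(m - m')) * bump ζ)
    ((hcφ.add continuousOn_const).add (continuousOn_const.mul hbc.continuousOn))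
    (by
      intro ζ hζ
      have hζ1 : ‖ζ‖ = 1 := mem_sphere_zero_iff_norm.1 hζ
      by_cases hn : ‖ζ - e1‖ < η
      · have h3 := ((hgltt _ (hφmem ζ hζ1.le) m').1 (hnear ζ hζ1 hn)).1
        refine h3.le.trans ?_
        rw [EReal.coe_le_coe_iff]
        have hb1 : bump ζ ≤ 1 := by
          rw [hbump]
          apply max_le zero_le_one
          have : 0 ≤ ‖ζ - e1‖ / η := by positivity
          linarith
        nlinarith
      · refine (hle _ (hφmem ζ hζ1.le)).trans ?_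
        rw [EReal.coe_le_coe_iff]
        have hb0 : bump ζ = 0 := by
          rw [hbump]
          apply max_eq_left
          push Not at hn
          have : 1 ≤ ‖ζ - e1‖ / η := by rw [one_le_div hη]; exact hn
          linarith
        rw [hb0]
        linarith)
  have hφ0 : φ 0 = z2 := by rw [hφ]; simp
  rw [hφ0] at key
  have hclog : ContinuousOn (fun ζ : ℂ => Real.log ‖z2 + ε * ζ‖) (sphere 0 1) := by
    apply ContinuousOn.log (by fun_prop)
    intro ζ hζ
    have := (hφmem ζ (by simpa using (mem_sphere_zero_iff_norm.1 hζ).le)).1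
    have h7 : 1 ≤ ‖z2 + ε * ζ‖ := this
    linarith
  have havg : Real.circleAverage (fun ζ => (c (φ ζ) + m) + (-(m - m')) * bump ζ) 0 1 =
      (c z2 + m) + (-(m - m')) * Real.circleAverage bump 0 1 := by
    rw [Real.circleAverage_fun_add ((hcφ.fun_add continuousOn_const).circleIntegrable zero_le_one)
      ((continuousOn_const.fun_mul hbc.continuousOn).circleIntegrable zero_le_one)]
    congr 1
    · rw [Real.circleAverage_fun_add (hcφ.circleIntegrable zero_le_one)
        (continuousOn_const.circleIntegrable zero_le_one), Real.circleAverage_const]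
      congr 1
      rw [hc, hφ]
      simp only
      rw [Real.circleAverage_fun_add (continuousOn_const.circleIntegrable zero_le_one)
        ((continuousOn_const.fun_mul hclog).circleIntegrable zero_le_one), Real.circleAverage_const]
      congr 1
      have := Real.circleAverage_smul (a := b) (f := fun ζ : ℂ => Real.log ‖z2 + ε * ζ‖) (c := 0)
        (R := 1)
      rw [avg_log hε0 (by linarith)] at this
      exact this
    · exact Real.circleAverage_smul (a := -(m - m')) (f := bump) (c := 0) (R := 1)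
  rw [havg] at key
  have hbp := bump_avg_pos he1n hη
  apply hnlt
  refine lt_of_le_of_lt key ?_
  rw [EReal.coe_lt_coe_iff]
  have : 0 < (m - m') * Real.circleAverage bump 0 1 := mul_pos (by linarith) hbp
  linarith

end Pool.Agent.Q72.WE
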