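import Pool.Agent.Q72.Psh.Defs
import Pool.Agent.Q72.Green.Defs

/-!
# Weighted extremal functions in the complex plane
-/

set_option autoImplicit false

open MeasureTheory Laplacian Filter Topology Set Q72.Psh

namespace Pool.Agent.Q72.WE

/-- The Lelong class `L` on `ℂ`. -/
def Lelong (u : ℂ → EReal) : Prop :=
  IsPSH univ u ∧ ∃ C : ℝ, ∀ z, u z ≤ ((Real.posLog ‖z‖ + C : ℝ) : EReal)

/-- The weighted extremal function `V_{K,Q}`. -/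
noncomputable def extV (K : Set ℂ) (Q : ℂ → ℝ) (z : ℂ) : EReal :=
  sSup {x | ∃ u, Lelong u ∧ (∀ w ∈ K, u w ≤ ((Q w : ℝ) : EReal)) ∧ u z = x}

/-- The weighted relative extremal function `U_{K,Q,Ω}`. -/
noncomputable def extU (Ω K : Set ℂ) (Q : ℂ → ℝ) (z : ℂ) : EReal :=
  sSup {x | ∃ u, IsPSH Ω u ∧ (∀ w ∈ Ω, u w < 0) ∧ (∀ w ∈ K, u w ≤ ((Q w : ℝ) : EReal)) ∧ u z = x}

/-- The upper semicontinuous regularization `v*`. -/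
noncomputable def reg (v : ℂ → EReal) (z : ℂ) : EReal := limsup v (𝓝 z)

/-- Pluripolar (for `n = 1`: polar) subsets of `ℂ`. -/
def IsPluripolar (S : Set ℂ) : Prop :=
  ∃ u : ℂ → EReal, IsPSH univ u ∧ (∃ z, u z ≠ ⊥) ∧ ∀ z ∈ S, u z = ⊥

/-- `Q` is a weight on the compact set `K`. -/
def IsWeight (K : Set ℂ) (Q : ℂ → ℝ) : Prop :=
  LowerSemicontinuousOn Q K ∧ (∀ z ∈ K, Q z ≤ 0) ∧ ¬ IsPluripolar {z ∈ K | Q z < 0}

/-- `μ` is the measure `dd^c v = 2 i ∂∂̄ v = Δ v` (in the sense of distributions) on the open set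
`Ω` of `ℂ`; as a measure on `ℂ` it does not charge the complement of `Ω`. -/
def IsDDc (Ω : Set ℂ) (v : ℂ → EReal) (μ : Measure ℂ) : Prop :=
  (∀ K : Set ℂ, IsCompact K → K ⊆ Ω → μ K < ⊤) ∧ μ Ωᶜ = 0 ∧ (∀ z ∈ Ω, v z ≠ ⊤ ∧ v z ≠ ⊥) ∧
  LocallyIntegrableOn (fun z => (v z).toReal) Ω ∧
  ∀ φ : ℂ → ℝ, ContDiff ℝ (⊤ : ℕ∞) φ → HasCompactSupport φ → tsupport φ ⊆ Ω →
    ∫ z, (v z).toReal * Δ φ z = ∫ z, φ z ∂μ

end Pool.Agent.Q72.WE
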