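import Pool.Agent.Q72.WE.Pot

set_option autoImplicit false
open MeasureTheory Laplacian InnerProductSpace Filter Topology Set

namespace Pool.Agent.Q72.WE

theorem log_max_laplacian {r : ℝ} (hr : 0 < r) {φ : ℂ → ℝ} (hφ : ContDiff ℝ 2 φ)
    (hc : HasCompactSupport φ) :
    ∫ z, Real.log (max ‖z‖ r) * Δ φ z = ∫ θ in (0 : ℝ)..2 * Real.pi, φ (circleMap 0 r θ) := by
  set σ : Measure ℂ := Measure.map (circleMap 0 r) (volume.restrict (Ioc 0 (2 * Real.pi))) with hσ
  have hm : Measurable (circleMap 0 r) := (continuous_circleMap 0 r).measurable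
  have : IsFiniteMeasure (volume.restrict (Ioc (0:ℝ) (2 * Real.pi))) :=
    ⟨by rw [Measure.restrict_apply_univ]; exact measure_Ioc_lt_top⟩
  have : IsFiniteMeasure σ := Measure.isFiniteMeasure_map _ _
  have hbd : ∀ᵐ w ∂σ, ‖w‖ ≤ r := by
    rw [hσ, ae_map_iff hm.aemeasurable (measurableSet_le measurable_norm measurable_const)]
    exact Eventually.of_forall fun θ => by simp [circleMap, abs_of_pos hr]
  have h1 := potential_laplacian σ hbd hφ hc
  have hpot : ∀ z : ℂ, ∫ w, Real.log ‖z - w‖ ∂σ = 2 * Real.pi * Real.log (max ‖z‖ r) := by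
    intro z
    rw [hσ, integral_map hm.aemeasurable]
    · have h2 := circleAverage_log_norm_sub_const_eq_log_radius_add_posLog (a := z) (c := 0)
        (R := r) hr.ne'
      rw [Real.circleAverage, smul_eq_mul, zero_sub, norm_neg] at h2
      have h3 : ∫ θ in (0 : ℝ)..2 * Real.pi, Real.log ‖circleMap 0 r θ - z‖ =
          2 * Real.pi * (Real.log r + (r⁻¹ * ‖z‖).posLog) := by
        rw [← h2]
        field_simp
      rw [← intervalIntegral.integral_of_le (by positivity)]
      have h4 : ∫ θ in (0 : ℝ)..2 * Real.pi, Real.log ‖z - circleMap 0 r θ‖ =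
          ∫ θ in (0 : ℝ)..2 * Real.pi, Real.log ‖circleMap 0 r θ - z‖ := by
        apply intervalIntegral.integral_congr
        intro θ _
        show Real.log ‖z - circleMap 0 r θ‖ = Real.log ‖circleMap 0 r θ - z‖
        rw [norm_sub_rev]
      rw [h4, h3]
      congr 1
      rcases le_total ‖z‖ r with h5 | h5
      · rw [max_eq_right h5, Real.posLog_eq_zero_iff _ |>.2, add_zero]
        rw [abs_of_nonneg (by positivity), ← div_eq_inv_mul, div_le_one hr]
        exact h5
      · have hz0 : 0 < ‖z‖ := hr.trans_le h5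
        rw [max_eq_left h5, Real.posLog_eq_log, Real.log_mul (by positivity) hz0.ne', Real.log_inv]
        · ring
        · rw [abs_of_nonneg (by positivity), ← div_eq_inv_mul, one_le_div hr]
          exact h5
    · apply Measurable.aestronglyMeasurable
      exact Real.measurable_log.comp (by fun_prop)
  have hphi : ∫ w, φ w ∂σ = ∫ θ in (0 : ℝ)..2 * Real.pi, φ (circleMap 0 r θ) := by
    rw [hσ, integral_map hm.aemeasurable hφ.continuous.aestronglyMeasurable,
      intervalIntegral.integral_of_le (by positivity)]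
  rw [hphi] at h1
  simp only [hpot] at h1
  have h6 : ∫ z, 2 * Real.pi * Real.log (max ‖z‖ r) * Δ φ z =
      2 * Real.pi * ∫ z, Real.log (max ‖z‖ r) * Δ φ z := by
    rw [← integral_const_mul]
    congr 1
    funext z
    ring
  rw [h6] at h1
  exact mul_left_cancel₀ (by positivity) h1

theorem kernel_bound {r : ℝ} (h0 : 0 < r) (h1 : r ≤ 1) (t : ℝ) (ht : 0 ≤ t) :
    |r * Real.log (max t r)| ≤ 1 + t := by
  have hm0 : 0 < max t r := lt_max_of_lt_right h0
  rw [abs_mul, abs_of_pos h0]
  rcases le_total (max t r) 1 with h | h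
  · have h2 : |Real.log (max t r)| = - Real.log (max t r) :=
      abs_of_nonpos (Real.log_nonpos hm0.le h)
    have h3 : - Real.log (max t r) ≤ r⁻¹ := by
      have h4 : Real.log r ≤ Real.log (max t r) := Real.log_le_log h0 (le_max_right _ _)
      have h5 := Real.log_le_sub_one_of_pos (inv_pos.2 h0)
      rw [Real.log_inv] at h5
      linarith
    rw [h2]
    calc r * -Real.log (max t r) ≤ r * r⁻¹ := by gcongr
      _ = 1 := mul_inv_cancel₀ h0.ne'
      _ ≤ 1 + t := by linarith
  · have h2 : |Real.log (max t r)| = Real.log (max t r) := abs_of_nonneg (Real.log_nonneg h)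
    rw [h2]
    have h3 : Real.log (max t r) ≤ max t r := by
      have := Real.log_le_sub_one_of_pos hm0; linarith
    have h4 : max t r ≤ 1 + t := max_le (by linarith) (by linarith)
    calc r * Real.log (max t r) ≤ 1 * Real.log (max t r) := by
          apply mul_le_mul_of_nonneg_right h1 (Real.log_nonneg h)
      _ ≤ 1 + t := by linarith

theorem disc_integral {φ : ℂ → ℝ} (hφ : Continuous φ) (hc : HasCompactSupport φ) :
    ∫ z in Metric.closedBall (0 : ℂ) 1, φ z =
      ∫ r in (0 : ℝ)..1, r * ∫ θ in (0 : ℝ)..2 * Real.pi, φ (circleMap 0 r θ) := by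
  obtain ⟨M, hM⟩ := hφ.bounded_above_of_compact_support hc
  have h1 := Complex.integral_comp_polarCoord_symm
    ((Metric.closedBall (0 : ℂ) 1).indicator φ)
  rw [integral_indicator Metric.isClosed_closedBall.measurableSet] at h1
  rw [← h1]
  have htar : polarCoord.target = Ioi (0 : ℝ) ×ˢ Ioo (-Real.pi) Real.pi := rfl
  have hsymm : ∀ p : ℝ × ℝ, Complex.polarCoord.symm p = circleMap 0 p.1 p.2 := by
    intro p
    rw [Complex.polarCoord_symm_apply, circleMap, zero_add, Complex.exp_mul_I]
    push_cast
    ring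
  -- reduce to the rectangle
  have h2 : ∫ p in polarCoord.target, p.1 • (Metric.closedBall (0 : ℂ) 1).indicator φ
      (Complex.polarCoord.symm p) =
      ∫ p in Ioc (0 : ℝ) 1 ×ˢ Ioo (-Real.pi) Real.pi, p.1 * φ (circleMap 0 p.1 p.2) := by
    rw [htar]
    have e1 : Ioc (0 : ℝ) 1 ×ˢ Ioo (-Real.pi) Real.pi ⊆ Ioi (0 : ℝ) ×ˢ Ioo (-Real.pi) Real.pi :=
      prod_mono Ioc_subset_Ioi_self subset_rfl
    rw [setIntegral_eq_of_subset_of_forall_sdiff_eq_zero
      (measurableSet_Ioi.prod measurableSet_Ioo) e1]
    · apply setIntegral_congr_fun (measurableSet_Ioc.prod measurableSet_Ioo)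
      intro p hp
      have hp1 := hp.1
      show p.1 • (Metric.closedBall (0 : ℂ) 1).indicator φ (Complex.polarCoord.symm p) = _
      rw [hsymm, indicator_of_mem, smul_eq_mul]
      rw [mem_closedBall_zero_iff]
      simp only [circleMap, zero_add, norm_mul, Complex.norm_real, Complex.norm_exp_ofReal_mul_I,
        mul_one, Real.norm_eq_abs]
      rw [abs_of_pos hp1.1]
      exact hp1.2
    · intro p hp
      have hp1 : 0 < p.1 := hp.1.1
      have hp2 : 1 < p.1 := by
        by_contra hcon
        push Not at hcon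
        exact hp.2 ⟨⟨hp1, hcon⟩, hp.1.2⟩
      rw [hsymm, indicator_of_notMem, smul_zero]
      rw [mem_closedBall_zero_iff]
      simp only [circleMap, zero_add, norm_mul, Complex.norm_real, Complex.norm_exp_ofReal_mul_I,
        mul_one, Real.norm_eq_abs]
      rw [abs_of_pos hp1]
      exact not_le.2 hp2
  rw [h2]
  have hcont : Continuous fun p : ℝ × ℝ => p.1 * φ (circleMap 0 p.1 p.2) := by
    apply continuous_fst.mul
    apply hφ.comp
    unfold circleMap
    fun_prop
  have hint : IntegrableOn (fun p : ℝ × ℝ => p.1 * φ (circleMap 0 p.1 p.2))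
      (Ioc (0 : ℝ) 1 ×ˢ Ioo (-Real.pi) Real.pi) (volume.prod volume) := by
    have hK : IsCompact (Icc (0 : ℝ) 1 ×ˢ Icc (-Real.pi) Real.pi) := isCompact_Icc.prod isCompact_Icc
    exact (hcont.continuousOn.integrableOn_compact hK).mono_set
      (prod_mono Ioc_subset_Icc_self Ioo_subset_Icc_self)
  rw [Measure.volume_eq_prod, setIntegral_prod _ hint, intervalIntegral.integral_of_le zero_le_one]
  apply setIntegral_congr_fun measurableSet_Ioc
  intro r _
  show ∫ y in Ioo (-Real.pi) Real.pi, r * φ (circleMap 0 r y) =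
    r * ∫ θ in (0 : ℝ)..2 * Real.pi, φ (circleMap 0 r θ)
  rw [integral_const_mul, ← integral_Ioc_eq_integral_Ioo,
    ← intervalIntegral.integral_of_le (by linarith [Real.pi_pos])]
  congr 1
  have hper : Function.Periodic (fun θ => φ (circleMap 0 r θ)) (2 * Real.pi) := by
    intro θ
    show φ _ = φ _
    rw [periodic_circleMap 0 r θ]
  have := hper.intervalIntegral_add_eq (-Real.pi) 0
  rw [zero_add] at this
  rw [← this]
  congr 1
  ring

/-- the potential of Lebesgue measure on the unit disc -/
noncomputable def P (t : ℝ) : ℝ := ∫ r in (0 : ℝ)..1, r * Real.log (max t r)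

theorem P_laplacian {φ : ℂ → ℝ} (hφ : ContDiff ℝ 2 φ) (hc : HasCompactSupport φ) :
    ∫ z, P ‖z‖ * Δ φ z = ∫ z in Metric.closedBall (0 : ℂ) 1, φ z := by
  have hΔc := LL.continuous_laplacian hφ
  have hΔs := LL.hasCompactSupport_laplacian hφ hc
  rw [disc_integral hφ.continuous hc]
  have hm : Measurable fun p : ℂ × ℝ => (p.2 * Real.log (max ‖p.1‖ p.2)) * Δ φ p.1 := by
    apply Measurable.mul
    · apply measurable_snd.mul
      exact Real.measurable_log.comp (measurable_fst.norm.max measurable_snd)
    · exact hΔc.measurable.comp measurable_fst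
  have hfin : IsFiniteMeasure (volume.restrict (Ioc (0:ℝ) 1)) :=
    ⟨by rw [Measure.restrict_apply_univ]; exact measure_Ioc_lt_top⟩
  have hint : Integrable (fun p : ℂ × ℝ => (p.2 * Real.log (max ‖p.1‖ p.2)) * Δ φ p.1)
      (volume.prod (volume.restrict (Ioc (0:ℝ) 1))) := by
    have hb : Integrable (fun z : ℂ => (1 + ‖z‖) * |Δ φ z|) := by
      apply Continuous.integrable_of_hasCompactSupport
      · exact (continuous_const.add continuous_norm).mul hΔc.abs
      · exact (hΔs.comp_left (g := fun t : ℝ => |t|) (by simp)).mul_left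
    have hb2 := hb.comp_fst (volume.restrict (Ioc (0:ℝ) 1))
    apply Integrable.mono' hb2 hm.aestronglyMeasurable
    have hae : ∀ᵐ p : ℂ × ℝ ∂(volume.prod (volume.restrict (Ioc (0:ℝ) 1))), p.2 ∈ Ioc (0:ℝ) 1 := by
      have h3 : ∀ᵐ r ∂(volume.restrict (Ioc (0:ℝ) 1)), r ∈ Ioc (0:ℝ) 1 :=
        ae_restrict_mem measurableSet_Ioc
      exact Measure.quasiMeasurePreserving_snd.ae h3
    filter_upwards [hae] with p hp
    rw [norm_mul, Real.norm_eq_abs, Real.norm_eq_abs]
    exact mul_le_mul_of_nonneg_right (kernel_bound hp.1 hp.2 _ (norm_nonneg _)) (abs_nonneg _)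
  have e1 : ∫ z, P ‖z‖ * Δ φ z = ∫ z, ∫ r in Ioc (0:ℝ) 1, (r * Real.log (max ‖z‖ r)) * Δ φ z := by
    congr 1
    funext z
    rw [P, intervalIntegral.integral_of_le zero_le_one, integral_mul_const]
  rw [e1, integral_integral_swap hint, intervalIntegral.integral_of_le zero_le_one]
  apply setIntegral_congr_fun measurableSet_Ioc
  intro r hr
  show ∫ z, (r * Real.log (max ‖z‖ r)) * Δ φ z =
    r * ∫ θ in (0 : ℝ)..2 * Real.pi, φ (circleMap 0 r θ)
  rw [← log_max_laplacian hr.1 hφ hc, ← integral_const_mul]
  congr 1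
  funext z
  ring

theorem P_formula {t : ℝ} (ht : 0 ≤ t) :
    P t = (min t 1 ^ 2 - 1) / 4 + 1 / 2 * Real.log (max t 1) := by
  unfold P
  have hanti : ∀ x : ℝ, 0 < x → HasDerivAt (fun r : ℝ => r * (r * Real.log r) / 2 - r ^ 2 / 4)
      (x * Real.log x) x := by
    intro x hx
    have h1 := (((hasDerivAt_id' x).fun_mul ((hasDerivAt_id' x).fun_mul
      (Real.hasDerivAt_log hx.ne'))).div_const 2).fun_sub ((hasDerivAt_pow 2 x).div_const 4)
    refine h1.congr_deriv ?_
    field_simp
    ring
  have hcont : Continuous fun r : ℝ => r * (r * Real.log r) / 2 - r ^ 2 / 4 := by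
    have := Real.continuous_mul_log
    fun_prop
  have hlog : ∀ a b : ℝ, 0 ≤ a → a ≤ b → ∫ r in a..b, r * Real.log r =
      (b * (b * Real.log b) / 2 - b ^ 2 / 4) - (a * (a * Real.log a) / 2 - a ^ 2 / 4) := by
    intro a b ha hab
    apply intervalIntegral.integral_eq_sub_of_hasDerivAt_of_le hab hcont.continuousOn
    · intro x hx
      exact hanti x (lt_of_le_of_lt ha hx.1)
    · exact Real.continuous_mul_log.intervalIntegrable _ _
  rcases le_total t 1 with h | h
  · rw [min_eq_left h, max_eq_right h, Real.log_one, mul_zero, add_zero]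
    have i1 : IntervalIntegrable (fun r => r * Real.log (max t r)) volume 0 t := by
      have : IntervalIntegrable (fun r : ℝ => r * Real.log t) volume 0 t :=
        (continuous_id.mul continuous_const).intervalIntegrable _ _
      refine this.congr ?_
      intro r hr
      rw [uIoc_of_le ht] at hr
      show r * Real.log t = r * Real.log (max t r)
      rw [max_eq_left hr.2]
    have i2 : IntervalIntegrable (fun r => r * Real.log (max t r)) volume t 1 := by
      refine (Real.continuous_mul_log.intervalIntegrable t 1).congr ?_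
      intro r hr
      rw [uIoc_of_le h] at hr
      show r * Real.log r = r * Real.log (max t r)
      rw [max_eq_right hr.1.le]
    rw [← intervalIntegral.integral_add_adjacent_intervals i1 i2]
    have e1 : ∫ r in (0:ℝ)..t, r * Real.log (max t r) = t ^ 2 / 2 * Real.log t := by
      have : ∫ r in (0:ℝ)..t, r * Real.log (max t r) = ∫ r in (0:ℝ)..t, r * Real.log t := by
        apply intervalIntegral.integral_congr
        intro r hr
        rw [uIcc_of_le ht] at hr
        show r * Real.log (max t r) = r * Real.log t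
        rw [max_eq_left hr.2]
      rw [this, intervalIntegral.integral_mul_const, integral_id]
      ring
    have e2 : ∫ r in t..1, r * Real.log (max t r) = ∫ r in t..1, r * Real.log r := by
      apply intervalIntegral.integral_congr
      intro r hr
      rw [uIcc_of_le h] at hr
      show r * Real.log (max t r) = r * Real.log r
      rw [max_eq_right hr.1]
    rw [e1, e2, hlog t 1 ht h, Real.log_one]
    ring
  · rw [min_eq_right h, max_eq_left h]
    have : ∫ r in (0:ℝ)..1, r * Real.log (max t r) = ∫ r in (0:ℝ)..1, r * Real.log t := by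
      apply intervalIntegral.integral_congr
      intro r hr
      rw [uIcc_of_le zero_le_one] at hr
      show r * Real.log (max t r) = r * Real.log t
      rw [max_eq_left (hr.2.trans h)]
    rw [this, intervalIntegral.integral_mul_const, integral_id]
    ring

/-- the radial functions -/
noncomputable def ww (κ t : ℝ) : ℝ := (min t 1 ^ 2 - 3) / 4 + κ * Real.log (max t 1)

theorem ww_cont (κ : ℝ) : Continuous (ww κ) := by
  unfold ww
  have h1 : Continuous fun t : ℝ => Real.log (max t 1) := by
    apply Continuous.log (by fun_prop)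
    intro t
    have := le_max_right t 1
    linarith
  fun_prop

theorem ww_laplacian (κ : ℝ) {φ : ℂ → ℝ} (hφ : ContDiff ℝ 2 φ) (hc : HasCompactSupport φ) :
    ∫ z, ww κ ‖z‖ * Δ φ z = (∫ z in Metric.closedBall (0 : ℂ) 1, φ z) +
      (κ - 1 / 2) * ∫ θ in (0 : ℝ)..2 * Real.pi, φ (circleMap 0 1 θ) := by
  have hΔc := LL.continuous_laplacian hφ
  have hΔs := LL.hasCompactSupport_laplacian hφ hc
  have h1 := P_laplacian hφ hc
  have h2 := log_max_laplacian one_pos hφ hc
  have h3 : ∫ z : ℂ, (1 : ℝ) * Δ φ z = 0 := by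
    have := LL.green (E := ℂ) (v := fun _ => (1 : ℝ)) contDiff_const hφ hc
    rw [this]
    have h4 : ∀ x : ℂ, Δ (fun _ : ℂ => (1 : ℝ)) x = 0 := by
      intro x
      rw [LL.laplacian_eq_sum_fderiv contDiff_const]
      simp
    simp [h4]
  have hP : Continuous fun z : ℂ => P ‖z‖ := by
    have : (fun z : ℂ => P ‖z‖) = fun z : ℂ =>
        (min ‖z‖ 1 ^ 2 - 1) / 4 + 1 / 2 * Real.log (max ‖z‖ 1) := by
      funext z
      exact P_formula (norm_nonneg z)
    rw [this]
    have h1 : Continuous fun t : ℂ => Real.log (max ‖t‖ 1) := by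
      apply Continuous.log (by fun_prop)
      intro t
      have := le_max_right ‖t‖ 1
      linarith
    fun_prop
  have hL : Continuous fun z : ℂ => Real.log (max ‖z‖ 1) := by
    apply Continuous.log (by fun_prop)
    intro t
    have := le_max_right ‖t‖ 1
    linarith
  have hdec : ∀ z : ℂ, ww κ ‖z‖ * Δ φ z = P ‖z‖ * Δ φ z +
      ((κ - 1 / 2) * (Real.log (max ‖z‖ 1) * Δ φ z) + (-(1 / 2)) * ((1 : ℝ) * Δ φ z)) := by
    intro z
    rw [P_formula (norm_nonneg z), ww]
    ring
  simp only [hdec]
  rw [integral_add, integral_add, integral_const_mul, integral_const_mul, h1, h2, h3]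
  · ring
  · exact ((hL.mul hΔc).integrable_of_hasCompactSupport hΔs.mul_left).const_mul _
  · exact ((continuous_const.mul hΔc).integrable_of_hasCompactSupport hΔs.mul_left).const_mul _
  · exact (hP.mul hΔc).integrable_of_hasCompactSupport hΔs.mul_left
  · exact (((hL.mul hΔc).integrable_of_hasCompactSupport hΔs.mul_left).const_mul _).add
      (((continuous_const.mul hΔc).integrable_of_hasCompactSupport hΔs.mul_left).const_mul _)

end Pool.Agent.Q72.WE
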