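import Pool.Agent.Q72.WE.Defs
import Pool.Agent.Q72.WE.Disc
import Pool.Agent.Q72.WE.Annulus
import Pool.Agent.Q72.Green.Barrier

set_option autoImplicit false

open MeasureTheory Laplacian Filter Topology Set Metric Q72.Psh Q72.Green

namespace Pool.Agent.Q72.WE

/-! ### the functions `ww κ ‖z‖` are subharmonic -/

lemma line_sub {φ : ℂ → ℂ} (hφ : AnalyticOnNhd ℂ φ (closedBall 0 1)) {a b : ℝ} (hb : 0 < b)
    {h : ℂ → ℝ} (hh : ContinuousOn h (sphere 0 1))
    (hle : ∀ ζ ∈ sphere (0 : ℂ) 1, φ ζ ≠ 0 → a + b * Real.log ‖φ ζ‖ ≤ h ζ) (h0 : φ 0 ≠ 0) :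
    a + b * Real.log ‖φ 0‖ ≤ Real.circleAverage h 0 1 := by
  have hp := (psh_log_prod (E := ℂ) {0} one_pos).2.2 φ hφ (mapsTo_univ _ _)
    (fun ζ => b⁻¹ * h ζ + -(b⁻¹ * a))
    ((continuousOn_const.fun_mul hh).fun_add continuousOn_const) (by
      intro ζ hζ
      simp only [Finset.prod_singleton, sub_zero, div_one]
      by_cases hz : φ ζ = 0
      · rw [hz, norm_zero]
        unfold Lg
        rw [if_neg (lt_irrefl _)]
        exact bot_le
      · rw [Lg_pos (norm_pos_iff.2 hz), EReal.coe_le_coe_iff]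
        have := hle ζ hζ hz
        rw [← mul_neg, ← mul_add, ← div_eq_inv_mul, le_div_iff₀ hb]
        linarith)
  simp only [Finset.prod_singleton, sub_zero, div_one] at hp
  rw [Lg_pos (norm_pos_iff.2 h0), EReal.coe_le_coe_iff,
    Real.circleAverage_fun_add ((continuousOn_const.fun_mul hh).circleIntegrable zero_le_one)
      (continuousOn_const.circleIntegrable zero_le_one), Real.circleAverage_const] at hp
  have e1 : Real.circleAverage (fun ζ => b⁻¹ * h ζ) 0 1 = b⁻¹ * Real.circleAverage h 0 1 :=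
    Real.circleAverage_smul (a := b⁻¹) (f := h) (c := 0) (R := 1)
  rw [e1, ← mul_neg, ← mul_add, ← div_eq_inv_mul, le_div_iff₀ hb] at hp
  linarith

lemma ww_of_le {κ t : ℝ} (h : t ≤ 1) : ww κ t = (t ^ 2 - 3) / 4 := by
  unfold ww
  rw [min_eq_left h, max_eq_right h, Real.log_one]; ring

lemma ww_of_ge {κ t : ℝ} (h : 1 ≤ t) : ww κ t = -1 / 2 + κ * Real.log t := by
  unfold ww
  rw [min_eq_right h, max_eq_left h]; ring

lemma line_le {κ : ℝ} (hκ : 1 / 2 ≤ κ) {s : ℝ} (hs0 : 0 < s) (hs1 : s ≤ 1) {t : ℝ} (ht : 0 < t) :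
    ((s ^ 2 - 3) / 4 - s ^ 2 / 2 * Real.log s) + s ^ 2 / 2 * Real.log t ≤ ww κ t := by
  rcases le_total t 1 with h | h
  · rw [ww_of_le h]
    have h1 := Real.log_le_sub_one_of_pos (show 0 < t ^ 2 / s ^ 2 by positivity)
    rw [Real.log_div (by positivity) (by positivity), Real.log_pow, Real.log_pow] at h1
    have h2 := mul_le_mul_of_nonneg_left h1 (show 0 ≤ s ^ 2 / 4 by positivity)
    have h3 : s ^ 2 / 4 * (t ^ 2 / s ^ 2 - 1) = t ^ 2 / 4 - s ^ 2 / 4 := by field_simp
    rw [h3] at h2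
    push_cast at h2
    linarith
  · rw [ww_of_ge h]
    have h1 := Real.log_le_sub_one_of_pos (show 0 < 1 / s ^ 2 by positivity)
    rw [Real.log_div (by positivity) (by positivity), Real.log_one, Real.log_pow] at h1
    have h2 := mul_le_mul_of_nonneg_left h1 (show 0 ≤ s ^ 2 / 4 by positivity)
    have h3 : s ^ 2 / 4 * (1 / s ^ 2 - 1) = 1 / 4 - s ^ 2 / 4 := by field_simp
    rw [h3] at h2
    have h4 := Real.log_nonneg h
    have h5 : s ^ 2 ≤ 1 := by nlinarith
    have h6 : s ^ 2 / 2 * Real.log t ≤ κ * Real.log t := by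
      apply mul_le_mul_of_nonneg_right _ h4
      linarith
    push_cast at h2
    linarith

lemma line_le' {κ : ℝ} (hκ : 1 / 2 ≤ κ) {t : ℝ} (ht : 0 < t) :
    -1 / 2 + κ * Real.log t ≤ ww κ t := by
  rcases le_total t 1 with h | h
  · rw [ww_of_le h]
    have h1 := Real.log_le_sub_one_of_pos (show 0 < t ^ 2 by positivity)
    rw [Real.log_pow] at h1
    have h2 : Real.log t ≤ 0 := Real.log_nonpos ht.le h
    have h3 : κ * Real.log t ≤ 1 / 2 * Real.log t := mul_le_mul_of_nonpos_right hκ h2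
    push_cast at h1
    linarith
  · rw [ww_of_ge h]

lemma ww_ge {κ : ℝ} (hκ : 0 ≤ κ) {t : ℝ} (_ht : 0 ≤ t) : -3 / 4 ≤ ww κ t := by
  unfold ww
  have h1 : 0 ≤ Real.log (max t 1) := Real.log_nonneg (le_max_right _ _)
  have h2 := sq_nonneg (min t 1)
  have h3 : 0 ≤ κ * Real.log (max t 1) := mul_nonneg hκ h1
  linarith

lemma ww_continuous (κ : ℝ) : Continuous fun z : ℂ => ww κ ‖z‖ :=
  (ww_cont κ).comp continuous_norm

lemma usc_real {f : ℂ → ℝ} (hf : Continuous f) (s : Set ℂ) :
    UpperSemicontinuousOn (fun z => ((f z : ℝ) : EReal)) s :=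
  (continuous_coe_real_ereal.comp hf).upperSemicontinuous.upperSemicontinuousOn s

theorem psh_ww {κ : ℝ} (hκ : 1 / 2 ≤ κ) : IsPSH univ (fun z : ℂ => ((ww κ ‖z‖ : ℝ) : EReal)) := by
  refine ⟨usc_real (ww_continuous κ) _, fun _ _ => EReal.coe_ne_top _, ?_⟩
  intro φ hφ _ h hh hle
  have hle' : ∀ ζ ∈ sphere (0 : ℂ) 1, ww κ ‖φ ζ‖ ≤ h ζ := fun ζ hζ =>
    EReal.coe_le_coe_iff.1 (hle ζ hζ)
  show ((ww κ ‖φ 0‖ : ℝ) : EReal) ≤ _
  rw [EReal.coe_le_coe_iff]
  by_cases h0 : φ 0 = 0
  · rw [h0, norm_zero, ww_of_le zero_le_one]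
    have h1 : Real.circleAverage (fun _ : ℂ => (-3 / 4 : ℝ)) 0 1 ≤ Real.circleAverage h 0 1 := by
      apply Real.circleAverage_mono (continuousOn_const.circleIntegrable zero_le_one)
        (hh.circleIntegrable zero_le_one)
      intro ζ hζ
      rw [abs_one] at hζ
      exact (ww_ge (by linarith) (norm_nonneg _)).trans (hle' ζ hζ)
    rw [Real.circleAverage_const] at h1
    linarith
  · have hpos := norm_pos_iff.2 h0
    rcases le_total ‖φ 0‖ 1 with h1 | h1
    · set s := ‖φ 0‖ with hs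
      have := line_sub hφ (a := (s ^ 2 - 3) / 4 - s ^ 2 / 2 * Real.log s) (b := s ^ 2 / 2)
        (by positivity) hh (fun ζ hζ hz =>
          (line_le hκ hpos h1 (norm_pos_iff.2 hz)).trans (hle' ζ hζ)) h0
      rw [ww_of_le h1]
      linarith
    · have := line_sub hφ (a := -1 / 2) (b := κ) (by linarith) hh (fun ζ hζ hz =>
          (line_le' hκ (norm_pos_iff.2 hz)).trans (hle' ζ hζ)) h0
      rw [ww_of_ge h1]
      exact this

/-! ### the data -/

/-- the weight -/
noncomputable def QQ (z : ℂ) : ℝ := (‖z‖ ^ 2 - 3) / 4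

theorem ww_eq_QQ {κ : ℝ} {z : ℂ} (h : ‖z‖ ≤ 1) : ww κ ‖z‖ = QQ z := ww_of_le h

theorem lelong_ww : Lelong (fun z : ℂ => ((ww 1 ‖z‖ : ℝ) : EReal)) := by
  refine ⟨psh_ww (by norm_num), 0, ?_⟩
  intro z
  rw [EReal.coe_le_coe_iff, add_zero]
  rcases le_total ‖z‖ 1 with h | h
  · rw [ww_of_le h]
    have := Real.posLog_nonneg (x := ‖z‖)
    nlinarith [norm_nonneg z]
  · rw [ww_of_ge h, Real.posLog_eq_log (by rw [abs_norm]; exact h)]
    linarith

theorem extV_le {u : ℂ → EReal} (hu : Lelong u)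
    (hQ : ∀ w ∈ closedBall (0 : ℂ) 1, u w ≤ ((QQ w : ℝ) : EReal)) (z : ℂ) :
    u z ≤ ((ww 1 ‖z‖ : ℝ) : EReal) := by
  rcases le_total ‖z‖ 1 with h | h
  · rw [ww_eq_QQ h]
    exact hQ z (by simpa using h)
  · rw [ww_of_ge h]
    obtain ⟨hpsh, C, hC⟩ := hu
    apply EReal.le_of_forall_lt_iff_le.1
    intro y hy
    rw [EReal.coe_lt_coe_iff] at hy
    -- choose ε
    have hlog := Real.log_nonneg h
    set ε : ℝ := (y - (-1 / 2 + 1 * Real.log ‖z‖)) / (Real.log ‖z‖ + 1) with hε
    have hε0 : 0 < ε := by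
      apply div_pos (by linarith) (by linarith)
    set ρ : ℝ := max (‖z‖ + 1) (Real.exp ((|C| + 1) / ε)) with hρ
    have hρ1 : ‖z‖ + 1 ≤ ρ := le_max_left _ _
    have hρ2 : Real.exp ((|C| + 1) / ε) ≤ ρ := le_max_right _ _
    have hρ3 : 1 < ρ := by linarith
    have hρ4 : (|C| + 1) / ε ≤ Real.log ρ := by
      rw [Real.le_log_iff_exp_le (by linarith)]
      exact hρ2
    have hb := annulus_le hpsh hρ3 (subset_univ _) (-1 / 2) (1 + ε)
      (by
        intro w hw
        refine (hQ w (by simpa using hw.le)).trans ?_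
        rw [EReal.coe_le_coe_iff, QQ, hw]
        norm_num)
      (by
        intro w hw
        refine (hC w).trans ?_
        rw [EReal.coe_le_coe_iff, hw, Real.posLog_eq_log (by rw [abs_of_pos (by linarith)]; linarith)]
        rw [div_le_iff₀ hε0] at hρ4
        have := le_abs_self C
        linarith) (z := z) ⟨h, by linarith⟩
    refine hb.trans ?_
    rw [EReal.coe_le_coe_iff]
    have h5 : ε * Real.log ‖z‖ ≤ y - (-1 / 2 + 1 * Real.log ‖z‖) := by
      have h6 : ε * (Real.log ‖z‖ + 1) = y - (-1 / 2 + 1 * Real.log ‖z‖) := by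
        rw [hε]
        field_simp
      nlinarith
    linarith

theorem extV_eq (z : ℂ) : extV (closedBall 0 1) QQ z = ((ww 1 ‖z‖ : ℝ) : EReal) := by
  apply le_antisymm
  · apply sSup_le
    rintro x ⟨u, hu, hQ, rfl⟩
    exact extV_le hu hQ z
  · apply le_sSup
    refine ⟨_, lelong_ww, ?_, rfl⟩
    intro w hw
    rw [ww_eq_QQ (by simpa using hw)]

/-- the domain -/
noncomputable def Om : Set ℂ := ball 0 (Real.exp 1)

theorem ww_neg {z : ℂ} (hz : z ∈ Om) : ww (1 / 2) ‖z‖ < 0 := by
  have hz' : ‖z‖ < Real.exp 1 := by simpa [Om] using hz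
  rcases le_total ‖z‖ 1 with h | h
  · rw [ww_of_le h]
    nlinarith [norm_nonneg z]
  · rw [ww_of_ge h]
    have : Real.log ‖z‖ < 1 := by
      rw [Real.log_lt_iff_lt_exp (by linarith)]; exact hz'
    linarith

theorem extU_le {u : ℂ → EReal} (hu : IsPSH Om u) (hneg : ∀ w ∈ Om, u w < 0)
    (hQ : ∀ w ∈ closedBall (0 : ℂ) 1, u w ≤ ((QQ w : ℝ) : EReal)) {z : ℂ} (hz : z ∈ Om) :
    u z ≤ ((ww (1 / 2) ‖z‖ : ℝ) : EReal) := by
  have hz' : ‖z‖ < Real.exp 1 := by simpa [Om] using hz
  rcases le_or_gt ‖z‖ 1 with h | h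
  · rw [ww_eq_QQ h]
    exact hQ z (by simpa using h)
  · rw [ww_of_ge h.le]
    have hlog := Real.log_pos h
    -- the estimate for every ρ
    have key : ∀ ρ : ℝ, ‖z‖ < ρ → ρ < Real.exp 1 →
        u z ≤ ((-1 / 2 + (1 / (2 * Real.log ρ)) * Real.log ‖z‖ : ℝ) : EReal) := by
      intro ρ h1 h2
      have hρ1 : 1 < ρ := h.trans h1
      have hρlog := Real.log_pos hρ1
      apply annulus_le hu hρ1 _ (-1 / 2) (1 / (2 * Real.log ρ)) _ _ (z := z) ⟨h.le, h1.le⟩
      · intro w hw
        have := hw.2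
        simp only [Om, mem_ball_zero_iff]
        linarith
      · intro w hw
        refine (hQ w (by simpa using hw.le)).trans ?_
        rw [EReal.coe_le_coe_iff, QQ, hw]
        norm_num
      · intro w hw
        refine (hneg w (by simp only [Om, mem_ball_zero_iff]; linarith)).le.trans ?_
        have : (-1 / 2 + 1 / (2 * Real.log ρ) * Real.log ρ : ℝ) = 0 := by
          field_simp
          norm_num
        rw [this]
        exact le_rfl
    have hlim : Tendsto (fun ρ : ℝ => -1 / 2 + (1 / (2 * Real.log ρ)) * Real.log ‖z‖)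
        (𝓝[<] (Real.exp 1)) (𝓝 (-1 / 2 + 1 / 2 * Real.log ‖z‖)) := by
      have h1 : ContinuousAt (fun ρ : ℝ => -1 / 2 + (1 / (2 * Real.log ρ)) * Real.log ‖z‖)
          (Real.exp 1) := by
        have h2 : ContinuousAt Real.log (Real.exp 1) := Real.continuousAt_log (Real.exp_ne_zero 1)
        have h3 : ContinuousAt (fun ρ : ℝ => 1 / (2 * Real.log ρ)) (Real.exp 1) := by
          apply ContinuousAt.div continuousAt_const (continuousAt_const.mul h2)
          show (2 : ℝ) * Real.log (Real.exp 1) ≠ 0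
          rw [Real.log_exp]; norm_num
        exact continuousAt_const.add (h3.mul continuousAt_const)
      have h4 := h1.tendsto
      rw [Real.log_exp, mul_one] at h4
      exact h4.mono_left nhdsWithin_le_nhds
    have hev : ∀ᶠ ρ in 𝓝[<] (Real.exp 1),
        u z ≤ ((-1 / 2 + (1 / (2 * Real.log ρ)) * Real.log ‖z‖ : ℝ) : EReal) := by
      have h1 : ∀ᶠ ρ in 𝓝[<] (Real.exp 1), ‖z‖ < ρ :=
        eventually_nhdsWithin_of_eventually_nhds (lt_mem_nhds hz')
      filter_upwards [h1, self_mem_nhdsWithin] with ρ h2 h3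
      exact key ρ h2 h3
    exact ge_of_tendsto ((continuous_coe_real_ereal.tendsto _).comp hlim) hev

theorem extU_eq {z : ℂ} (hz : z ∈ Om) :
    extU Om (closedBall 0 1) QQ z = ((ww (1 / 2) ‖z‖ : ℝ) : EReal) := by
  apply le_antisymm
  · apply sSup_le
    rintro x ⟨u, hu, hneg, hQ, rfl⟩
    exact extU_le hu hneg hQ hz
  · apply le_sSup
    refine ⟨_, (psh_ww (κ := 1 / 2) le_rfl).mono (subset_univ _), ?_, ?_, rfl⟩
    · intro w hw
      exact_mod_cast ww_neg hw
    · intro w hw
      rw [ww_eq_QQ (by simpa using hw)]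

theorem reg_extV (z : ℂ) : reg (extV (closedBall 0 1) QQ) z = ((ww 1 ‖z‖ : ℝ) : EReal) := by
  have h1 : extV (closedBall 0 1) QQ = fun z => ((ww 1 ‖z‖ : ℝ) : EReal) := by
    funext w; exact extV_eq w
  rw [reg, h1]
  exact ((continuous_coe_real_ereal.comp (ww_continuous 1)).tendsto z).limsup_eq

theorem reg_extU {z : ℂ} (hz : z ∈ Om) :
    reg (extU Om (closedBall 0 1) QQ) z = ((ww (1 / 2) ‖z‖ : ℝ) : EReal) := by
  rw [reg]
  have h1 : Tendsto (fun z : ℂ => ((ww (1 / 2) ‖z‖ : ℝ) : EReal)) (𝓝 z)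
      (𝓝 ((ww (1 / 2) ‖z‖ : ℝ) : EReal)) :=
    (continuous_coe_real_ereal.comp (ww_continuous (1 / 2))).tendsto z
  have h2 : (fun z : ℂ => ((ww (1 / 2) ‖z‖ : ℝ) : EReal)) =ᶠ[𝓝 z]
      extU Om (closedBall 0 1) QQ := by
    filter_upwards [isOpen_ball.mem_nhds hz] with w hw
    exact (extU_eq hw).symm
  exact (h1.congr' h2).limsup_eq

theorem hyperconvex_Om : IsHyperconvex Om := by
  refine ⟨isOpen_ball, ?_, isBounded_ball, fun z => ww (1 / 2) ‖z‖,
    (ww_continuous _).continuousOn, (psh_ww le_rfl).mono (subset_univ _), fun z hz => ww_neg hz, ?_⟩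
  · exact (convex_ball (0 : ℂ) _).isConnected (nonempty_ball.2 (Real.exp_pos 1))
  · intro c hc
    have h1 : {z : ℂ | z ∈ Om ∧ ww (1 / 2) ‖z‖ ≤ c} = {z : ℂ | ww (1 / 2) ‖z‖ ≤ c} := by
      ext z
      constructor
      · intro h; exact h.2
      · intro h
        refine ⟨?_, h⟩
        simp only [Om, mem_ball_zero_iff]
        by_contra hcon
        push Not at hcon
        have h2 : (1 : ℝ) ≤ Real.exp 1 := Real.one_le_exp zero_le_one
        have h3 : ww (1 / 2) ‖z‖ ≤ c := h
        rw [ww_of_ge (h2.trans hcon)] at h3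
        have h4 : 1 ≤ Real.log ‖z‖ := by
          rw [Real.le_log_iff_exp_le (lt_of_lt_of_le (Real.exp_pos 1) hcon)]
          exact hcon
        linarith
    rw [h1]
    apply Metric.isCompact_of_isClosed_isBounded
    · exact isClosed_le (ww_continuous _) continuous_const
    · rw [← h1]
      exact isBounded_ball.subset fun z hz => hz.1

theorem not_pluripolar : ¬ IsPluripolar (closedBall (0 : ℂ) 1) := by
  rintro ⟨u, hu, ⟨z0, hz0⟩, hbot⟩
  apply hz0
  by_cases h00 : z0 = 0
  · exact hbot z0 (by rw [h00]; simp)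
  have hr : 0 < ‖z0‖ := norm_pos_iff.2 h00
  set φ : ℂ → ℂ := fun ζ => z0 + ‖z0‖ * ζ with hφ
  have hcφ : Continuous φ := by rw [hφ]; fun_prop
  have hdφ : Differentiable ℂ φ := by rw [hφ]; fun_prop
  -- upper bound
  obtain ⟨C, hC⟩ : ∃ C : ℝ, ∀ ζ ∈ sphere (0 : ℂ) 1, u (φ ζ) ≤ ((C : ℝ) : EReal) := by
    have hK : IsCompact (φ '' sphere 0 1) := (isCompact_sphere _ _).image hcφ
    have hne : (φ '' sphere 0 1).Nonempty := ⟨φ 1, 1, by simp, rfl⟩
    obtain ⟨w, _, hmax⟩ := (hu.1.mono (subset_univ (φ '' sphere 0 1))).exists_isMaxOn hne hK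
    obtain ⟨C, hC, _⟩ := EReal.lt_iff_exists_real_btwn.1 (lt_top_iff_ne_top.2 (hu.2.1 w (mem_univ _)))
    refine ⟨C, fun ζ hζ => ?_⟩
    exact (hmax ⟨ζ, hζ, rfl⟩ : u (φ ζ) ≤ u w).trans hC.le
  set e1 : ℂ := -z0 / ‖z0‖ with he1
  have hz20 : (‖z0‖ : ℂ) ≠ 0 := by
    rw [Complex.ofReal_ne_zero]; linarith
  have he1n : ‖e1‖ = 1 := by
    rw [he1, norm_div, norm_neg, Complex.norm_real, norm_norm, div_self (by linarith)]
  have hη : 0 < 1 / ‖z0‖ := by positivity
  have hbp := bump_avg_pos he1n hη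
  set bump : ℂ → ℝ := fun ξ => max 0 (1 - ‖ξ - e1‖ / (1 / ‖z0‖)) with hbump
  have hbc : Continuous bump := by rw [hbump]; fun_prop
  rw [EReal.eq_bot_iff_forall_lt]
  intro y
  set M : ℝ := (|C| + |y| + 1) / Real.circleAverage bump 0 1 with hM
  have hM0 : 0 ≤ M := by positivity
  have key := hu.2.2 φ (fun x _ => hdφ.analyticAt x) (mapsTo_univ _ _)
    (fun ζ => C + (-M) * bump ζ)
    (continuousOn_const.fun_add (continuousOn_const.fun_mul hbc.continuousOn)) (by
      intro ζ hζ
      by_cases hn : ‖ζ - e1‖ < 1 / ‖z0‖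
      · rw [hbot (φ ζ)]
        · exact bot_le
        · have h1 : φ ζ = ‖z0‖ * (ζ - e1) := by
            rw [hφ, he1]
            field_simp
            ring
          rw [mem_closedBall_zero_iff, h1, norm_mul, Complex.norm_real, norm_norm]
          rw [lt_div_iff₀ hr] at hn
          linarith
      · refine (hC ζ hζ).trans ?_
        rw [EReal.coe_le_coe_iff]
        have hb0 : bump ζ = 0 := by
          rw [hbump]
          apply max_eq_left
          push Not at hn
          have : 1 ≤ ‖ζ - e1‖ / (1 / ‖z0‖) := by rw [one_le_div hη]; exact hn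
          linarith
        rw [hb0]
        linarith)
  have hφ0 : φ 0 = z0 := by rw [hφ]; simp
  rw [hφ0, Real.circleAverage_fun_add (continuousOn_const.circleIntegrable zero_le_one)
    ((continuousOn_const.fun_mul hbc.continuousOn).circleIntegrable zero_le_one),
    Real.circleAverage_const] at key
  have e3 : Real.circleAverage (fun ζ => -M * bump ζ) 0 1 = -M * Real.circleAverage bump 0 1 :=
    Real.circleAverage_smul (a := -M) (f := bump) (c := 0) (R := 1)
  rw [e3] at key
  refine lt_of_le_of_lt key ?_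
  rw [EReal.coe_lt_coe_iff]
  have : M * Real.circleAverage bump 0 1 = |C| + |y| + 1 := by
    rw [hM]; field_simp
  have h7 := le_abs_self C
  have h8 := neg_abs_le y
  linarith

theorem weight_QQ : IsWeight (closedBall (0 : ℂ) 1) QQ := by
  have hneg : ∀ z ∈ closedBall (0 : ℂ) 1, QQ z < 0 := by
    intro z hz
    rw [mem_closedBall_zero_iff] at hz
    unfold QQ
    nlinarith [norm_nonneg z]
  refine ⟨?_, fun z hz => (hneg z hz).le, ?_⟩
  · have : Continuous QQ := by unfold QQ; fun_prop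
    exact this.lowerSemicontinuous.lowerSemicontinuousOn _
  · have : {z | z ∈ closedBall (0 : ℂ) 1 ∧ QQ z < 0} = closedBall (0 : ℂ) 1 := by
      ext z
      exact ⟨fun h => h.1, fun h => ⟨h, hneg z h⟩⟩
    rw [this]
    exact not_pluripolar

/-! ### the measures -/

/-- arc length on the unit circle -/
noncomputable def arc : Measure ℂ :=
  Measure.map (circleMap 0 1) (volume.restrict (Ioc 0 (2 * Real.pi)))

/-- Lebesgue measure on the unit disc -/
noncomputable def area : Measure ℂ := volume.restrict (closedBall (0 : ℂ) 1)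

/-- the measure of `V` -/
noncomputable def muV : Measure ℂ := area + ENNReal.ofReal (1 / 2) • arc

lemma circleMap_measurable : Measurable (circleMap 0 1) := (continuous_circleMap 0 1).measurable

lemma arc_sphere : arc (sphere (0 : ℂ) 1) = ENNReal.ofReal (2 * Real.pi) := by
  rw [arc, Measure.map_apply circleMap_measurable isClosed_sphere.measurableSet]
  have : circleMap 0 1 ⁻¹' sphere (0 : ℂ) 1 = univ := by
    ext θ
    simp [circleMap]
  rw [this, Measure.restrict_apply_univ, Real.volume_Ioc, sub_zero]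

instance : IsFiniteMeasure arc := by
  have : IsFiniteMeasure (volume.restrict (Ioc (0:ℝ) (2 * Real.pi))) :=
    ⟨by rw [Measure.restrict_apply_univ]; exact measure_Ioc_lt_top⟩
  exact Measure.isFiniteMeasure_map _ _

instance : IsFiniteMeasure area :=
  ⟨by rw [area, Measure.restrict_apply_univ]; exact measure_closedBall_lt_top⟩

lemma arc_integral {φ : ℂ → ℝ} (hφ : Continuous φ) :
    ∫ w, φ w ∂arc = ∫ θ in (0 : ℝ)..2 * Real.pi, φ (circleMap 0 1 θ) := by
  rw [arc, integral_map circleMap_measurable.aemeasurable hφ.aestronglyMeasurable,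
    intervalIntegral.integral_of_le (by positivity)]

lemma muV_integral {φ : ℂ → ℝ} (hφ : Continuous φ) (hc : HasCompactSupport φ) :
    ∫ w, φ w ∂muV = (∫ z in closedBall (0 : ℂ) 1, φ z) +
      (1 - 1 / 2) * ∫ θ in (0 : ℝ)..2 * Real.pi, φ (circleMap 0 1 θ) := by
  have hi : ∀ μ : Measure ℂ, IsFiniteMeasure μ → Integrable φ μ := fun μ _ =>
    hφ.integrable_of_hasCompactSupport hc
  rw [muV, integral_add_measure (hi area inferInstance)
    ((hi arc inferInstance).smul_measure ENNReal.ofReal_ne_top), integral_smul_measure,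
    arc_integral hφ, ENNReal.toReal_ofReal (by norm_num)]
  norm_num [area]

theorem support_area : area.support = closedBall (0 : ℂ) 1 := by
  apply Subset.antisymm
  · exact Measure.support_subset_of_isClosed isClosed_closedBall
      (ae_restrict_mem isClosed_closedBall.measurableSet)
  · have h1 : interior (closedBall (0 : ℂ) 1) ∩ (volume : Measure ℂ).support ⊆ area.support :=
      Measure.interior_inter_support
    rw [Measure.support_eq_univ, inter_univ] at h1
    have h2 : closure (interior (closedBall (0 : ℂ) 1)) ⊆ area.support :=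
      closure_minimal h1 Measure.isClosed_support
    rw [interior_closedBall _ one_ne_zero, closure_ball _ one_ne_zero] at h2
    exact h2

theorem support_muV : muV.support = closedBall (0 : ℂ) 1 := by
  rw [muV, Measure.support_add, support_area]
  apply union_eq_self_of_subset_right
  apply Measure.support_subset_of_isClosed isClosed_closedBall
  rw [mem_ae_iff, Measure.smul_apply, smul_eq_mul]
  have : arc (closedBall (0 : ℂ) 1)ᶜ = 0 := by
    rw [arc, Measure.map_apply circleMap_measurable isClosed_closedBall.measurableSet.compl]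
    have : circleMap 0 1 ⁻¹' (closedBall (0 : ℂ) 1)ᶜ = ∅ := by
      ext θ
      simp [circleMap]
    rw [this, measure_empty]
  rw [this, mul_zero]

theorem not_ac : ¬ (muV ≪ area) := by
  intro h
  have h1 : area (sphere (0 : ℂ) 1) = 0 := by
    rw [area, Measure.restrict_apply isClosed_sphere.measurableSet]
    exact measure_mono_null inter_subset_left (Measure.addHaar_sphere _ _ _)
  have h2 := h h1
  rw [muV, Measure.add_apply, h1, zero_add, Measure.smul_apply, smul_eq_mul, arc_sphere,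
    mul_eq_zero, ENNReal.ofReal_eq_zero, ENNReal.ofReal_eq_zero] at h2
  rcases h2 with h2 | h2
  · norm_num at h2
  · have := Real.pi_pos
    linarith

theorem ddcV : IsDDc univ (reg (extV (closedBall 0 1) QQ)) muV := by
  have h0 : ∀ z, (reg (extV (closedBall 0 1) QQ) z).toReal = ww 1 ‖z‖ := fun z => by
    rw [reg_extV, EReal.toReal_coe]
  refine ⟨?_, by simp, ?_, ?_, ?_⟩
  · intro K hK _
    have hA : IsFiniteMeasure muV := by
      refine ⟨?_⟩
      rw [muV, Measure.add_apply, Measure.smul_apply, smul_eq_mul]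
      exact ENNReal.add_lt_top.2 ⟨measure_lt_top _ _,
        ENNReal.mul_lt_top ENNReal.ofReal_lt_top (measure_lt_top _ _)⟩
    exact measure_lt_top _ _
  · intro z _
    rw [reg_extV]
    exact ⟨EReal.coe_ne_top _, EReal.coe_ne_bot _⟩
  · simp only [h0]
    exact (ww_continuous 1).locallyIntegrable.locallyIntegrableOn _
  · intro φ hφ hc _
    have hφ2 : ContDiff ℝ 2 φ := hφ.of_le (WithTop.coe_le_coe.2 le_top)
    simp only [h0]
    rw [ww_laplacian 1 hφ2 hc, muV_integral hφ.continuous hc]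

theorem ddcU : IsDDc Om (reg (extU Om (closedBall 0 1) QQ)) area := by
  have h0 : ∀ z ∈ Om, (reg (extU Om (closedBall 0 1) QQ) z).toReal = ww (1 / 2) ‖z‖ :=
    fun z hz => by rw [reg_extU hz, EReal.toReal_coe]
  refine ⟨fun K _ _ => measure_lt_top _ _, ?_, ?_, ?_, ?_⟩
  · have hOm : MeasurableSet Om := isOpen_ball.measurableSet
    rw [area, Measure.restrict_apply hOm.compl]
    have : Omᶜ ∩ closedBall (0 : ℂ) 1 = ∅ := by
      ext z
      simp only [mem_inter_iff, mem_compl_iff, mem_closedBall_zero_iff, mem_empty_iff_false,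
        iff_false, not_and, not_le, Om, mem_ball_zero_iff, not_lt]
      intro h
      have : (1 : ℝ) < Real.exp 1 := by
        have := Real.add_one_lt_exp (one_ne_zero (α := ℝ)); linarith
      linarith
    rw [this, measure_empty]
  · intro z hz
    rw [reg_extU hz]
    exact ⟨EReal.coe_ne_top _, EReal.coe_ne_bot _⟩
  · intro z hz
    obtain ⟨ε, hε, hsub⟩ := Metric.nhds_basis_closedBall.mem_iff.1 (isOpen_ball.mem_nhds hz)
    refine ⟨closedBall z ε, mem_nhdsWithin_of_mem_nhds (closedBall_mem_nhds z hε), ?_⟩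
    have h2 : IntegrableOn (fun z : ℂ => ww (1 / 2) ‖z‖) (closedBall z ε) :=
      (ww_continuous _).continuousOn.integrableOn_compact (isCompact_closedBall _ _)
    exact h2.congr_fun (fun w hw => (h0 w (hsub hw)).symm) isClosed_closedBall.measurableSet
  · intro φ hφ hc hsub
    have hφ2 : ContDiff ℝ 2 φ := hφ.of_le (WithTop.coe_le_coe.2 le_top)
    have e1 : ∀ z, (reg (extU Om (closedBall 0 1) QQ) z).toReal * Δ φ z =
        ww (1 / 2) ‖z‖ * Δ φ z := by
      intro z
      by_cases hz : z ∈ Om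
      · rw [h0 z hz]
      · have : Δ φ z = 0 := by
          rw [LL.laplacian_eq_sum_fderiv hφ2]
          refine Finset.sum_eq_zero fun i _ => ?_
          have h1 : z ∉ tsupport (fun y => fderiv ℝ φ y (stdOrthonormalBasis ℝ ℂ i)) :=
            fun h => hz (hsub (tsupport_fderiv_apply_subset ℝ _ h))
          rw [fderiv_of_notMem_tsupport _ h1]
          rfl
        rw [this, mul_zero, mul_zero]
    simp only [e1]
    rw [ww_laplacian (1 / 2) hφ2 hc, sub_self, zero_mul, add_zero]
    rfl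

end Pool.Agent.Q72.WE
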