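import Pool.Agent.Q72.WE.Log

set_option autoImplicit false
open MeasureTheory Laplacian InnerProductSpace Filter Topology Set

namespace Pool.Agent.Q72.WE

theorem locInt_log (p : ℂ) : LocallyIntegrable (fun x : ℂ => Real.log ‖x - p‖) := by
  rw [locallyIntegrable_iff]
  intro K hK
  obtain ⟨R, hR⟩ := hK.isBounded.subset_ball p
  refine IntegrableOn.mono_set ?_ hR
  have h1 : IntegrableOn (fun z : ℂ => Real.log ‖z‖) (Metric.ball 0 R) := by
    have := (locallyIntegrable_iff.mp LL.locInt_log0) (Metric.closedBall 0 R)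
      (isCompact_closedBall _ _)
    exact this.mono_set Metric.ball_subset_closedBall
  have h2 := ((measurePreserving_sub_right (volume : Measure ℂ)
    p).integrableOn_comp_preimage (MeasurableEquiv.subRight p).measurableEmbedding
      (f := fun z : ℂ => Real.log ‖z‖) (s := Metric.ball 0 R)).mpr h1
  have h3 : (fun x : ℂ => x - p) ⁻¹' Metric.ball 0 R = Metric.ball p R := by
    ext x
    simp [dist_eq_norm]
  rw [h3] at h2
  exact h2

theorem log_translate (p : ℂ) {φ : ℂ → ℝ}
    (hφ : ContDiff ℝ 2 φ) (hc : HasCompactSupport φ) :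
    ∫ x, Real.log ‖x - p‖ * Δ φ x = 2 * Real.pi * φ p := by
  have hφ' : ContDiff ℝ 2 (fun y => φ (y + p)) := hφ.comp (contDiff_id.add contDiff_const)
  have hc' : HasCompactSupport (fun y => φ (y + p)) :=
    hc.comp_homeomorph (Homeomorph.addRight p)
  have h1 := LL.integral_log_laplacian hφ' hc'
  have h2 : ∀ y, Δ (fun y => φ (y + p)) y = Δ φ (y + p) := by
    intro y
    rw [LL.laplacian_eq_sum_fderiv hφ', LL.laplacian_eq_sum_fderiv hφ]
    apply Finset.sum_congr rfl
    intro i _
    have e1 : (fun y => fderiv ℝ (fun y => φ (y + p)) y (stdOrthonormalBasis ℝ ℂ i)) =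
        fun y => (fun z => fderiv ℝ φ z (stdOrthonormalBasis ℝ ℂ i)) (y + p) := by
      funext y
      rw [fderiv_comp_add_right]
    have e2 := fderiv_comp_add_right (𝕜 := ℝ) (f := fun z => fderiv ℝ φ z (stdOrthonormalBasis ℝ
        ℂ i)) (x := y) p
    rw [e1]
    exact congrArg (fun L => L (stdOrthonormalBasis ℝ ℂ i)) e2
  simp only [h2, zero_add] at h1
  have h3 := integral_sub_right_eq_self (μ := (volume : Measure ℂ))
    (fun y => Real.log ‖y‖ * Δ φ (y + p)) p
  simp only [sub_add_cancel] at h3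
  rw [h3]
  exact h1

/-- uniform bound for the logarithmic potentials -/
theorem log_bound {f : ℂ → ℝ} (hf : Continuous f) (hc : HasCompactSupport f) (r : ℝ) :
    ∃ C : ℝ, ∀ w : ℂ, ‖w‖ ≤ r → ∫ z, ‖Real.log ‖z - w‖ * f z‖ ≤ C := by
  obtain ⟨M, hM⟩ := hf.bounded_above_of_compact_support hc
  obtain ⟨R, hR⟩ := hc.isCompact.isBounded.subset_ball 0
  have hM0 : 0 ≤ M := (norm_nonneg _).trans (hM 0)
  refine ⟨M * ∫ x in Metric.ball (0 : ℂ) (R + r), ‖Real.log ‖x‖‖, ?_⟩
  intro w hw
  have h1 : IntegrableOn (fun z : ℂ => ‖Real.log ‖z‖‖) (Metric.ball 0 (R + r)) := by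
    have := (locallyIntegrable_iff.mp LL.locInt_log0) (Metric.closedBall 0 (R + r))
      (isCompact_closedBall _ _)
    exact (this.mono_set Metric.ball_subset_closedBall).norm
  have e1 : ∀ z, ‖Real.log ‖z - w‖ * f z‖ ≤
      M * (Metric.ball (0 : ℂ) (R + r)).indicator (fun x => ‖Real.log ‖x‖‖) (z - w) := by
    intro z
    rw [norm_mul]
    by_cases hz : z ∈ tsupport f
    · have h2 : z - w ∈ Metric.ball (0 : ℂ) (R + r) := by
        have := hR hz
        rw [mem_ball_zero_iff] at this ⊢
        exact lt_of_le_of_lt (norm_sub_le _ _) (by linarith)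
      rw [indicator_of_mem h2, mul_comm]
      exact mul_le_mul_of_nonneg_right (hM z) (norm_nonneg _)
    · rw [image_eq_zero_of_notMem_tsupport hz, norm_zero, mul_zero]
      apply mul_nonneg hM0
      exact indicator_nonneg (fun _ _ => norm_nonneg _) _
  have hint : Integrable (fun z => (Metric.ball (0 : ℂ) (R + r)).indicator
      (fun x => ‖Real.log ‖x‖‖) (z - w)) := by
    have := (integrable_indicator_iff measurableSet_ball).2 h1
    exact this.comp_sub_right w
  calc ∫ z, ‖Real.log ‖z - w‖ * f z‖ ≤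
      ∫ z, M * (Metric.ball (0 : ℂ) (R + r)).indicator (fun x => ‖Real.log ‖x‖‖) (z - w) := by
        apply integral_mono_of_nonneg (Eventually.of_forall fun _ => norm_nonneg _)
          (hint.const_mul M) (Eventually.of_forall e1)
    _ = M * ∫ x in Metric.ball (0 : ℂ) (R + r), ‖Real.log ‖x‖‖ := by
        rw [integral_const_mul, integral_sub_right_eq_self (μ := (volume : Measure ℂ))
          (fun z => (Metric.ball (0 : ℂ) (R + r)).indicator (fun x => ‖Real.log ‖x‖‖) z) w,
          integral_indicator measurableSet_ball]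

/-- `Δ` of the logarithmic potential of a finite measure with bounded support -/
theorem potential_laplacian (σ : Measure ℂ) [IsFiniteMeasure σ] {r : ℝ}
    (hσ : ∀ᵐ w ∂σ, ‖w‖ ≤ r) {φ : ℂ → ℝ} (hφ : ContDiff ℝ 2 φ) (hc : HasCompactSupport φ) :
    ∫ z, (∫ w, Real.log ‖z - w‖ ∂σ) * Δ φ z = 2 * Real.pi * ∫ w, φ w ∂σ := by
  have hΔc := LL.continuous_laplacian hφ
  have hΔs := LL.hasCompactSupport_laplacian hφ hc
  obtain ⟨C, hC⟩ := log_bound hΔc hΔs r
  have hmeas : AEStronglyMeasurable (fun p : ℂ × ℂ => Real.log ‖p.1 - p.2‖ * Δ φ p.1)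
      (volume.prod σ) := by
    apply Measurable.aestronglyMeasurable
    apply Measurable.mul
    · exact Real.measurable_log.comp (by fun_prop)
    · exact hΔc.measurable.comp measurable_fst
  have hint : Integrable (fun p : ℂ × ℂ => Real.log ‖p.1 - p.2‖ * Δ φ p.1) (volume.prod σ) := by
    rw [integrable_prod_iff' hmeas]
    constructor
    · refine Eventually.of_forall fun w => ?_
      exact (locInt_log w).integrable_smul_right_of_hasCompactSupport hΔc hΔs
    · have hm2 := hmeas.norm.integral_prod_right'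
      have hm3 : AEStronglyMeasurable (fun y => ∫ x, ‖Real.log ‖x - y‖ * Δ φ x‖) σ := by
        have := hmeas.prod_swap.norm.integral_prod_right'
        exact this
      apply Integrable.mono' (integrable_const C) hm3
      filter_upwards [hσ] with w hw
      rw [Real.norm_of_nonneg (integral_nonneg fun _ => norm_nonneg _)]
      exact hC w hw
  have h1 : ∫ z, (∫ w, Real.log ‖z - w‖ ∂σ) * Δ φ z =
      ∫ z, ∫ w, Real.log ‖z - w‖ * Δ φ z ∂σ := by
    congr 1
    funext z
    rw [integral_mul_const]
  rw [h1, integral_integral_swap hint, ← integral_const_mul]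
  congr 1
  funext w
  exact log_translate w hφ hc

end Pool.Agent.Q72.WE
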